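import Pool.Agent.Helper83.CO.St

/-!
# Project CO (MP_140278_ag), module NEB: linear on all invariant valuations over critical points
-/

set_option autoImplicit false

namespace Pool.Agent.Helper21.CO

open Pool.Agent.Helper53.CX Pool.Agent.Helper83.CO MvPolynomial
open scoped BigOperators

/-- the real pairing of the difference of a term and a multiple of a real vector -/
theorem prR_sub {k : ℕ} (a : Fin (k + 1) → ℤ) (m : ℤ) (α : Fin k → ℤ) (r x : ℝ) (y : Fin k → ℝ) :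
    prR a ((m : ℝ) - r * x) (fun j => (α j : ℝ) - r * y j) = (pr a m α : ℝ) - r * prR a x y := by
  unfold prR pr
  push_cast
  rw [mul_add, Finset.mul_sum, mul_sub]
  have : ∑ j, (a (Fin.succ j) : ℝ) * ((α j : ℝ) - r * y j) =
      ∑ j, (a (Fin.succ j) : ℝ) * (α j : ℝ) - ∑ j, r * ((a (Fin.succ j) : ℝ) * y j) := by
    rw [← Finset.sum_sub_distrib]
    refine Finset.sum_congr rfl fun j _ => ?_
    ring
  rw [this]
  ring

theorem prR_abs {k : ℕ} (a : Fin (k + 1) → ℤ) (x c : ℝ) (y : Fin k → ℝ) (hx : |x| ≤ c)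
    (hy : ∀ j, |y j| ≤ c) : |prR a x y| ≤ c * (|(a 0 : ℝ)| + ∑ j : Fin k, |(a j.succ : ℝ)|) := by
  unfold prR
  calc |(a 0 : ℝ) * x + ∑ j, (a (Fin.succ j) : ℝ) * y j|
      ≤ |(a 0 : ℝ) * x| + |∑ j, (a (Fin.succ j) : ℝ) * y j| := abs_add_le _ _
    _ ≤ |(a 0 : ℝ)| * c + ∑ j : Fin k, |(a (Fin.succ j) : ℝ)| * c := by
        refine add_le_add ?_ ((Finset.abs_sum_le_sum_abs _ _).trans (Finset.sum_le_sum fun j _ => ?_))
        · rw [abs_mul]
          exact mul_le_mul_of_nonneg_left hx (abs_nonneg _)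
        · rw [abs_mul]
          exact mul_le_mul_of_nonneg_left (hy j) (abs_nonneg _)
    _ = _ := by
        rw [← Finset.sum_mul]
        ring

theorem hNEB (hTRM : StTRM) (hBND : StBND) : StNEB := by
  intro k P D vd M ζ α hC1 hvd hNN hζ hM s a v hs ha hv
  obtain ⟨-, A₁, -, hA₁⟩ := hNN
  obtain ⟨C₀, hC₀, hB⟩ := hBND k P D hC1
  set C₁ : ℝ := ∑ e ∈ D, |(A₁.div (vd e) : ℝ)| with hC₁
  have hC₁0 : 0 ≤ C₁ := Finset.sum_nonneg fun _ _ => abs_nonneg _
  have hC₁e : ∀ e ∈ D, (A₁.div (vd e) : ℝ) ≤ C₁ := fun e he =>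
    (le_abs_self _).trans (Finset.single_le_sum (f := fun e => |(A₁.div (vd e) : ℝ)|)
      (fun _ _ => abs_nonneg _) he)
  set C₂ : ℝ := C₀ * C₁ * (|(a 0 : ℝ)| + ∑ j : Fin k, |(a j.succ : ℝ)|) with hC₂
  have key : ∀ m : ℕ, 1 ≤ m → |(m : ℝ) * ((M v : ℝ) + prR a (ζ s) α)| ≤ C₂ + |(A₁.div v : ℝ)| := by
    intro m hm
    obtain ⟨N, F, hN, hFL, hF⟩ := hA₁ m hm
    have hN' : (0 : ℝ) < N := by exact_mod_cast hN
    obtain ⟨f, hf, hfv⟩ := Finset.exists_mem_eq_sup' F.nonempty (fun f => - v.ord f)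
    have hfv' : F.div v = - v.ord f := hfv
    obtain ⟨T, hT1, hT2⟩ := hTRM k P f hC1.zero (hFL f hf) (F.ne_zero f hf)
    obtain ⟨t, ht, htv⟩ := (hT2 s a v ha hv).2
    have h1 := hB (fun s => (t.1 s : ℝ) - (N * m : ℝ) * ζ s) (fun j => (t.2 j : ℝ) - (N * m : ℝ) * α j)
      (N * C₁) (by positivity) ?_ ?_
    · have h2 := prR_abs a _ (C₀ * (N * C₁)) _ (h1.1 s hs) h1.2
      rw [prR_sub] at h2
      have h3 : (F.div v : ℝ) = N * (m * M v + A₁.div v) := by
        rw [← hF v]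
        push_cast
        ring
      have h4 : (pr a (t.1 s) t.2 : ℝ) = - (F.div v : ℝ) := by
        rw [← htv, hfv']
        push_cast
        ring
      rw [h4, h3] at h2
      have h5 : -((N : ℝ) * (m * M v + A₁.div v)) - N * m * prR a (ζ s) α =
          N * (-(m * ((M v : ℝ) + prR a (ζ s) α) + A₁.div v)) := by ring
      rw [h5, abs_mul, abs_of_pos hN', abs_neg] at h2
      have h6 : |(m : ℝ) * ((M v : ℝ) + prR a (ζ s) α) + A₁.div v| ≤ C₂ := by
        have h7 : C₀ * (N * C₁) * (|(a 0 : ℝ)| + ∑ j : Fin k, |(a j.succ : ℝ)|) = N * C₂ := by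
          rw [hC₂]
          ring
        rw [h7] at h2
        exact le_of_mul_le_mul_left h2 hN'
      have h8 : (m : ℝ) * ((M v : ℝ) + prR a (ζ s) α) =
          ((m : ℝ) * ((M v : ℝ) + prR a (ζ s) α) + A₁.div v) - A₁.div v := by ring
      rw [h8]
      exact (abs_sub _ _).trans (by linarith)
    · intro e he
      rw [prR_sub]
      have h2 := (hT2 e.1 e.2 (vd e) (hC1.mem e he).2.1 (hvd e he)).1 t ht
      have h3 : - (vd e).ord f ≤ F.div (vd e) :=
        Finset.le_sup' (f := fun f => - (vd e).ord f) hf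
      have h4 := hF (vd e)
      have h2' : ((vd e).ord f : ℝ) ≤ (pr e.2 (t.1 e.1) t.2 : ℝ) := by exact_mod_cast h2
      have h3' : - ((vd e).ord f : ℝ) ≤ (F.div (vd e) : ℝ) := by exact_mod_cast h3
      have h4' : (N : ℝ) * (m * M (vd e) + A₁.div (vd e)) = (F.div (vd e) : ℝ) := by
        rw [← h4]
        push_cast
        ring
      have h5 := hM e he
      have h6 : prR e.2 (ζ e.1) α = - (M (vd e) : ℝ) := by rw [h5]; ring
      have h7 := mul_le_mul_of_nonneg_left (hC₁e e he) hN'.le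
      rw [h6]
      nlinarith
    · rw [Finset.sum_sub_distrib, ← Finset.mul_sum, hζ, mul_zero, sub_zero]
      exact_mod_cast hT1 t ht
  have hfin : (M v : ℝ) + prR a (ζ s) α = 0 := by
    by_contra h
    have hpos : 0 < |(M v : ℝ) + prR a (ζ s) α| := abs_pos.2 h
    obtain ⟨m, hm⟩ := exists_nat_gt ((C₂ + |(A₁.div v : ℝ)|) / |(M v : ℝ) + prR a (ζ s) α|)
    rw [div_lt_iff₀ hpos] at hm
    have h1 := key (m + 1) (by omega)
    rw [abs_mul, abs_of_nonneg (by positivity)] at h1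
    push_cast at h1
    nlinarith
  linarith

end Pool.Agent.Helper21.CO
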